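import Pool.Agent.J6H21.DR.Form

/-!
# Size of the integer linear form given by a relation between digits
-/

set_option autoImplicit false

namespace Pool.Agent.J6H21.DR

open Finset Polynomial Module Pool.Agent.W472.AC Pool.Agent.R473.EC Pool.Agent.TH629.ExpDig

/-- **The integer linear form.** -/
theorem form_of_rel {n m : ℕ} (x : Fin n → ℝ) (E : Fin (m + 1) → Fin n → ℕ)
    (hE : Function.Injective E) (hdown : ∀ j, ∀ a : Fin n → ℕ, a ≤ E j → ∃ j', E j' = a) :
    ∃ A : ℝ, 1 ≤ A ∧ ∀ b : ℕ, 2 ≤ b → ∀ L k t : ℕ, t ≤ L →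
    ∀ s : Fin n → ℕ → ℤ, (∀ i l, 0 ≤ s i l ∧ s i l < b) →
      (∀ i l, t < l → l ≤ L → s i l = digit b (x i) l) →
    SRel s E L k → ∃ e : Fin (m + 1) → ℤ, e ≠ 0 ∧
      (∀ j, |(e j : ℝ)| ≤
        Real.exp (A * ((k + 1 + t) * Real.log b + Real.log (L + 1)))) ∧
      |∑ j, (e j : ℝ) * ∏ i, x i ^ E j i| ≤
        Real.exp (A * ((k + 1 + t) * Real.log b + Real.log (L + 1)) - L * Real.log b) := by
  classical
  obtain ⟨p, hp⟩ : ∃ p : ℕ, p = ∑ j, ∑ i, E j i := ⟨_, rfl⟩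
  have hEp : ∀ j, ∑ i, E j i ≤ p := fun j => by
    rw [hp]
    exact Finset.single_le_sum (f := fun j => ∑ i, E j i) (fun _ _ => Nat.zero_le _)
      (Finset.mem_univ j)
  obtain ⟨M, hM1, hM⟩ : ∃ M : ℕ, 1 ≤ M ∧ ∀ i, |⌊x i⌋| + 1 ≤ (M : ℤ) := by
    refine ⟨1 + ∑ i, (⌊x i⌋).natAbs, by omega, fun i => ?_⟩
    have h1 : (⌊x i⌋).natAbs ≤ ∑ i, (⌊x i⌋).natAbs :=
      Finset.single_le_sum (f := fun i => (⌊x i⌋).natAbs) (fun _ _ => Nat.zero_le _)
        (Finset.mem_univ i)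
    have h2 : ((⌊x i⌋).natAbs : ℤ) = |⌊x i⌋| := Int.natCast_natAbs _
    push_cast
    have h3 : ((⌊x i⌋).natAbs : ℤ) ≤ ((∑ i, (⌊x i⌋).natAbs : ℕ) : ℤ) := by exact_mod_cast h1
    rw [h2] at h3
    push_cast at h3
    linarith
  have hp0 : (0 : ℝ) ≤ p := Nat.cast_nonneg p
  have hM0 : (1 : ℝ) ≤ M := by exact_mod_cast hM1
  obtain ⟨lr, hlr⟩ : ∃ x : ℝ, x = Real.log ((m : ℝ) + 1) := ⟨_, rfl⟩
  obtain ⟨lu, hlu⟩ : ∃ x : ℝ, x = Real.log (2 * M) := ⟨_, rfl⟩
  have hlr0 : 0 ≤ lr := by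
    rw [hlr]; exact Real.log_nonneg (by linarith [(Nat.cast_nonneg m : (0 : ℝ) ≤ m)])
  have hlu0 : 0 ≤ lu := by rw [hlu]; exact Real.log_nonneg (by linarith)
  obtain ⟨κ, hκ⟩ : ∃ κ : ℝ, κ = 2 * ((m : ℝ) + 1) := ⟨_, rfl⟩
  have hκ0 : 0 ≤ κ := by rw [hκ]; positivity
  obtain ⟨c₀, hc₀⟩ : ∃ x : ℝ, x = 2 * (lr + 2 + κ * lr + p * lu) := ⟨_, rfl⟩
  have hc₀0 : 0 ≤ c₀ := by rw [hc₀]; positivity
  refine ⟨c₀ + (κ * p + p) + (κ * (p + 1) + p + 2) + 2 + p, by nlinarith, ?_⟩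
  intro b hb L k t htL s hs hst hrel
  obtain ⟨A, hA⟩ : ∃ A : ℝ, A = c₀ + (κ * p + p) + (κ * (p + 1) + p + 2) + 2 + p := ⟨_, rfl⟩
  rw [← hA]
  have hbR : (2 : ℝ) ≤ b := by exact_mod_cast hb
  have hb0 : (0 : ℝ) < b := by linarith
  obtain ⟨lb, hlbd⟩ : ∃ x : ℝ, x = Real.log b := ⟨_, rfl⟩
  obtain ⟨lL, hlLd⟩ : ∃ x : ℝ, x = Real.log ((L : ℝ) + 1) := ⟨_, rfl⟩
  rw [← hlbd, ← hlLd]
  have hlb : 1 / 2 < lb := by
    rw [hlbd]
    have h1 := Real.log_le_log (by norm_num) hbR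
    have h2 := Real.log_two_gt_d9
    linarith
  have hlL : 0 ≤ lL := by
    rw [hlLd]
    exact Real.log_nonneg (by linarith [(Nat.cast_nonneg L : (0 : ℝ) ≤ L)])
  have hbe : (b : ℝ) = Real.exp lb := by rw [hlbd, Real.exp_log hb0]
  have hLe : (L : ℝ) + 1 = Real.exp lL := by rw [hlLd, Real.exp_log (by positivity)]
  have hre : (m : ℝ) + 1 = Real.exp lr := by rw [hlr, Real.exp_log (by positivity)]
  have hue : 2 * (M : ℝ) = Real.exp lu := by rw [hlu, Real.exp_log (by positivity)]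
  have h2e : (2 : ℝ) ≤ Real.exp 1 := by
    have := Real.add_one_le_exp (1 : ℝ)
    linarith
  have hk0 : (0 : ℝ) ≤ k := Nat.cast_nonneg k
  have ht0 : (0 : ℝ) ≤ t := Nat.cast_nonneg t
  -- the atoms
  obtain ⟨kb, hkb⟩ : ∃ x : ℝ, x = k * lb := ⟨_, rfl⟩
  obtain ⟨tb, htb⟩ : ∃ x : ℝ, x = t * lb := ⟨_, rfl⟩
  have hkb0 : 0 ≤ kb := by rw [hkb]; positivity
  have htb0 : 0 ≤ tb := by rw [htb]; positivity
  obtain ⟨Λ, hΛ⟩ : ∃ x : ℝ, x = (k + 1 + t) * lb + lL := ⟨_, rfl⟩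
  have hΛ' : Λ = kb + lb + tb + lL := by rw [hΛ, hkb, htb]; ring
  rw [← hΛ]
  have hΛ0 : 0 ≤ Λ := by rw [hΛ']; linarith
  have m1 : c₀ * lb ≤ c₀ * Λ := mul_le_mul_of_nonneg_left (by rw [hΛ']; linarith) hc₀0
  have m2 : (κ * p + p) * lb ≤ (κ * p + p) * Λ :=
    mul_le_mul_of_nonneg_left (by rw [hΛ']; linarith) (by positivity)
  have m3 : (κ * (p + 1) + p + 2) * lL ≤ (κ * (p + 1) + p + 2) * Λ :=
    mul_le_mul_of_nonneg_left (by rw [hΛ']; linarith) (by positivity)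
  have m4 : 2 * kb ≤ 2 * Λ := mul_le_mul_of_nonneg_left (by rw [hΛ']; linarith) (by norm_num)
  have m5 : p * tb ≤ p * Λ := mul_le_mul_of_nonneg_left (by rw [hΛ']; linarith) hp0
  have m0 : lr + 2 + κ * lr + p * lu ≤ c₀ * lb := by
    rw [hc₀]
    have : 0 ≤ lr + 2 + κ * lr + p * lu := by positivity
    nlinarith
  have hAΛ : A * Λ = c₀ * Λ + (κ * p + p) * Λ + (κ * (p + 1) + p + 2) * Λ + 2 * Λ + p * Λ := by
    rw [hA]; ring
  by_cases hKL : k + k + 1 ≤ L
  · obtain ⟨B, hB⟩ : ∃ B : ℕ, B = (b * (L + 1)) ^ p := ⟨_, rfl⟩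
    obtain ⟨H, hH⟩ : ∃ H : ℕ, H = ((m + 1) * (k + k + 1) * B) ^ (2 * (m + 1)) := ⟨_, rfl⟩
    obtain ⟨e, he0, hec, hev⟩ := form_raw x E hE hdown p hEp M hM hM1 b hb L k t htL s hs hst hrel
      B H hB hH
    have hk1 : ((k : ℝ) + k + 1) ≤ Real.exp lL := by
      rw [← hLe]
      have : ((k + k + 1 : ℕ) : ℝ) ≤ L := by exact_mod_cast hKL
      push_cast at this
      linarith
    have hBe : (B : ℝ) = Real.exp (p * (lb + lL)) := by
      rw [hB]
      push_cast
      rw [hLe, hbe, ← Real.exp_add, ← Real.exp_nat_mul]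
    have hHe : (H : ℝ) ≤ Real.exp (κ * (lr + lL + p * (lb + lL))) := by
      rw [hH]
      push_cast
      rw [hBe, hre, hκ]
      calc (Real.exp lr * (k + k + 1) * Real.exp (p * (lb + lL))) ^ (2 * (m + 1))
          ≤ (Real.exp lr * Real.exp lL * Real.exp (p * (lb + lL))) ^ (2 * (m + 1)) := by
            gcongr
        _ = _ := by
            rw [← Real.exp_add, ← Real.exp_add, ← Real.exp_nat_mul]
            push_cast
            ring_nf
    refine ⟨e, he0, fun i => (hec i).trans ?_, hev.trans ?_⟩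
    · calc 2 * (H : ℝ) * (b : ℝ) ^ (k + k) *
            (((m : ℝ) + 1) * 2 ^ p * ((M : ℝ) * (b : ℝ) ^ t) ^ p)
          = ((m : ℝ) + 1) * (2 * H * (b : ℝ) ^ (k + k)) * ((b : ℝ) ^ t * (2 * M)) ^ p := by
            rw [mul_pow, mul_pow, mul_pow]
            ring
        _ ≤ Real.exp lr * (Real.exp 1 * Real.exp (κ * (lr + lL + p * (lb + lL))) *
              (Real.exp lb) ^ (k + k)) * ((Real.exp lb) ^ t * Real.exp lu) ^ p := by
            rw [← hre, ← hue, ← hbe]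
            gcongr
        _ = Real.exp (lr + (1 + κ * (lr + lL + p * (lb + lL)) + (k + k) * lb) +
              p * (t * lb + lu)) := by
            simp only [← Real.exp_nat_mul, ← Real.exp_add]
            push_cast
            ring_nf
        _ ≤ Real.exp (A * Λ) := by
            rw [Real.exp_le_exp, hAΛ]
            have e : lr + (1 + κ * (lr + lL + p * (lb + lL)) + (k + k) * lb) +
                p * (t * lb + lu) = (lr + 1 + κ * lr + p * lu) + κ * p * lb + κ * (p + 1) * lL +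
                2 * kb + p * tb := by rw [hkb, htb]; ring
            rw [e]
            have e2 : 0 ≤ (p : ℝ) * lb := by positivity
            have e3 : 0 ≤ ((p : ℝ) + 2) * lL := by positivity
            linarith
    · calc ((b : ℝ) ^ t) ^ p * ((b : ℝ) ^ (k + k) *
            ((1 / b) ^ L * (2 * (m + 1) * H * ((k + k + 1) * B + B))))
          ≤ ((Real.exp lb) ^ t) ^ p * ((Real.exp lb) ^ (k + k) *
            ((Real.exp (-lb)) ^ L * (Real.exp 1 * Real.exp lr *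
              Real.exp (κ * (lr + lL + p * (lb + lL))) *
              (Real.exp lL * Real.exp (p * (lb + lL)) * Real.exp 1)))) := by
            rw [Real.exp_neg, ← hre, ← hbe, ← hBe, one_div]
            have h3 : ((k : ℝ) + k + 1) * B + B ≤ Real.exp lL * B * Real.exp 1 := by
              have hB0 : (0 : ℝ) ≤ B := Nat.cast_nonneg _
              have h4 : ((k : ℝ) + k + 1) + 1 ≤ Real.exp lL * Real.exp 1 := by
                have h5 : 1 ≤ Real.exp lL := Real.one_le_exp hlL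
                nlinarith
              calc ((k : ℝ) + k + 1) * B + B = (((k : ℝ) + k + 1) + 1) * B := by ring
                _ ≤ (Real.exp lL * Real.exp 1) * B := mul_le_mul_of_nonneg_right h4 hB0
                _ = _ := by ring
            gcongr
        _ = Real.exp (p * (t * lb) + ((k + k) * lb + (L * (-lb) + (1 + lr +
              κ * (lr + lL + p * (lb + lL)) + (lL + p * (lb + lL) + 1))))) := by
            simp only [← Real.exp_nat_mul, ← Real.exp_add]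
            push_cast
            ring_nf
        _ ≤ Real.exp (A * Λ - L * lb) := by
            rw [Real.exp_le_exp, hAΛ]
            have e : p * (t * lb) + ((k + k) * lb + (L * (-lb) + (1 + lr +
                κ * (lr + lL + p * (lb + lL)) + (lL + p * (lb + lL) + 1)))) =
                (lr + 2 + κ * lr) + (κ * p + p) * lb + (κ * (p + 1) + p + 1) * lL +
                2 * kb + p * tb - L * lb := by rw [hkb, htb]; ring
            rw [e]
            have e2 : 0 ≤ (p : ℝ) * lu := by positivity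
            linarith
  · push Not at hKL
    obtain ⟨j₀, hj₀⟩ := hdown 0 0 (fun i => Nat.zero_le _)
    have h1A : 0 ≤ A * Λ := by rw [hA]; positivity
    refine ⟨Pi.single j₀ 1, ?_, fun i => ?_, ?_⟩
    · intro h
      have := congrFun h j₀
      simp at this
    · have h1 : |((Pi.single j₀ (1 : ℤ) : Fin (m + 1) → ℤ) i : ℝ)| ≤ 1 := by
        by_cases hi : i = j₀
        · subst hi; simp
        · rw [Pi.single_eq_of_ne hi]; simp
      exact h1.trans (Real.one_le_exp h1A)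
    · have h2 : ∑ j, ((Pi.single j₀ (1 : ℤ) : Fin (m + 1) → ℤ) j : ℝ) * ∏ i, x i ^ E j i = 1 := by
        rw [Finset.sum_eq_single j₀]
        · rw [hj₀]; simp
        · intro j _ hj
          rw [Pi.single_eq_of_ne hj]; simp
        · intro h
          exact absurd (Finset.mem_univ _) h
      rw [h2, abs_one]
      refine Real.one_le_exp ?_
      have h1 : (L : ℝ) * lb ≤ 2 * kb := by
        rw [hkb]
        have h2 : (L : ℝ) ≤ 2 * k := by
          have : L ≤ 2 * k := by omega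
          exact_mod_cast this
        nlinarith
      rw [hAΛ]
      have h3 : 0 ≤ c₀ * Λ + (κ * p + p) * Λ + (κ * (p + 1) + p + 2) * Λ + p * Λ := by positivity
      linarith

end Pool.Agent.J6H21.DR
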