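import Pool.Agent.R473.JC.Form

/-!
# The integer linear form in monomials given by a relation between digits
-/

set_option autoImplicit false

namespace Pool.Agent.J6H21.DR

open Finset Polynomial Module Pool.Agent.W472.AC Pool.Agent.R473.EC Pool.Agent.TH629.ExpDig

/-- **Rational shift of a linear form in monomials.** -/
theorem shift_form {n m : ℕ} (ξ : Fin n → ℝ) (E : Fin (m + 1) → Fin n → ℕ)
    (hE : Function.Injective E) (hdown : ∀ j, ∀ a : Fin n → ℕ, a ≤ E j → ∃ j', E j' = a)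
    (p : ℕ) (hp : ∀ j, ∑ i, E j i ≤ p) (B Q : ℕ) (hB : 1 ≤ B) (hBQ : B ≤ Q) (q : Fin n → ℤ)
    (hq : ∀ i, |q i| ≤ Q) (a : Fin (m + 1) → ℤ) (ha : a ≠ 0) (H : ℝ) (haH : ∀ j, |(a j : ℝ)| ≤ H) :
    ∃ e : Fin (m + 1) → ℤ, e ≠ 0 ∧ (∀ j', |(e j' : ℝ)| ≤ H * (((m : ℝ) + 1) * 2 ^ p * Q ^ p)) ∧
      ∑ j', (e j' : ℝ) * ∏ i, ξ i ^ E j' i =
        (B : ℝ) ^ p * ∑ j, (a j : ℝ) * ∏ i, (ξ i + q i / B) ^ E j i := by
  classical
  have hB0 : (0 : ℝ) < B := by exact_mod_cast hB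
  have hB1 : (1 : ℝ) ≤ B := by exact_mod_cast hB
  have hBQR : (B : ℝ) ≤ Q := by exact_mod_cast hBQ
  have hQ0 : (0 : ℝ) < Q := by linarith
  have hH0 : 0 ≤ H := (abs_nonneg _).trans (haH 0)
  obtain ⟨a', ha'⟩ : ∃ a' : Fin (m + 1) → ℤ, a' = fun j => a j * (B : ℤ) ^ (p - ∑ i, E j i) :=
    ⟨_, rfl⟩
  have ha'0 : a' ≠ 0 := by
    intro h0
    apply ha
    ext j
    have h1 := congrFun h0 j
    rw [ha'] at h1
    simp only [Pi.zero_apply] at h1
    have h2 : (B : ℤ) ^ (p - ∑ i, E j i) ≠ 0 := by positivity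
    exact (mul_eq_zero.1 h1).resolve_right h2
  have htri := nonzero_tri (fun i => - q i) E hE a' ha'0
  obtain ⟨e, he⟩ : ∃ e : Fin (m + 1) → ℤ, e = fun j' => (B : ℤ) ^ (∑ i, E j' i) *
    ∑ j, a' j * T (fun i => - q i) (E j) (E j') := ⟨_, rfl⟩
  have he0 : e ≠ 0 := by
    intro h0
    apply htri
    ext j'
    have h1 := congrFun h0 j'
    rw [he] at h1
    simp only [Pi.zero_apply] at h1 ⊢
    have h2 : (B : ℤ) ^ (∑ i, E j' i) ≠ 0 := by positivity
    exact (mul_eq_zero.1 h1).resolve_left h2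
  -- the identity
  have hid : ∑ j', (e j' : ℝ) * ∏ i, ξ i ^ E j' i =
      (B : ℝ) ^ p * ∑ j, (a j : ℝ) * ∏ i, (ξ i + q i / B) ^ E j i := by
    have h1 : ∀ j, (B : ℝ) ^ (∑ i, E j i) * ∏ i, (ξ i + q i / B) ^ E j i =
        ∑ j', (T (fun i => - q i) (E j) (E j') : ℝ) *
          ((B : ℝ) ^ (∑ i, E j' i) * ∏ i, ξ i ^ E j' i) := by
      intro j
      have h2 := expand_family (fun i => - q i) (fun i => B * ξ i) E hE hdown j
      have h3 : ∏ i, (B * ξ i - ((- q i : ℤ) : ℝ)) ^ (E j i) =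
          (B : ℝ) ^ (∑ i, E j i) * ∏ i, (ξ i + q i / B) ^ E j i := by
        rw [← Finset.prod_pow_eq_pow_sum, ← Finset.prod_mul_distrib]
        refine Finset.prod_congr rfl fun i _ => ?_
        rw [← mul_pow]
        congr 1
        push_cast
        field_simp
        ring
      rw [← h3, h2]
      refine Finset.sum_congr rfl fun j' _ => ?_
      rw [← Finset.prod_pow_eq_pow_sum, ← Finset.prod_mul_distrib]
      congr 1
      refine Finset.prod_congr rfl fun i _ => ?_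
      rw [mul_pow]
    have h4 : ∀ j, (B : ℝ) ^ p * ((a j : ℝ) * ∏ i, (ξ i + q i / B) ^ E j i) =
        (a' j : ℝ) * ((B : ℝ) ^ (∑ i, E j i) * ∏ i, (ξ i + q i / B) ^ E j i) := by
      intro j
      rw [ha']
      push_cast
      have h5 : (B : ℝ) ^ p = (B : ℝ) ^ (p - ∑ i, E j i) * (B : ℝ) ^ (∑ i, E j i) := by
        rw [← pow_add]
        congr 1
        have := hp j
        omega
      rw [h5]
      ring
    rw [Finset.mul_sum, Finset.sum_congr rfl fun j _ => h4 j]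
    simp_rw [h1, Finset.mul_sum]
    rw [Finset.sum_comm]
    refine Finset.sum_congr rfl fun j' _ => ?_
    rw [he]
    push_cast
    rw [mul_comm ((B : ℝ) ^ _) (∑ j, _), Finset.sum_mul, Finset.sum_mul]
    refine Finset.sum_congr rfl fun j _ => ?_
    ring
  -- the size
  have hT : ∀ j j', (B : ℝ) ^ (∑ i, E j' i) * |(T (fun i => - q i) (E j) (E j') : ℝ)| ≤
      2 ^ (∑ i, E j i) * (Q : ℝ) ^ (∑ i, E j i) := by
    intro j j'
    by_cases hle : E j' ≤ E j
    · unfold T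
      push_cast
      rw [Finset.abs_prod, ← Finset.prod_pow_eq_pow_sum, ← Finset.prod_mul_distrib,
        ← mul_pow, ← Finset.prod_pow_eq_pow_sum]
      refine Finset.prod_le_prod (fun i _ => by positivity) fun i _ => ?_
      rw [abs_mul, abs_pow, neg_neg, abs_of_nonneg (Nat.cast_nonneg _)]
      have h1 : |(q i : ℝ)| ≤ Q := by exact_mod_cast hq i
      have h2 : |(q i : ℝ)| ^ (E j i - E j' i) ≤ (Q : ℝ) ^ (E j i - E j' i) :=
        pow_le_pow_left₀ (abs_nonneg _) h1 _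
      have h3 : ((Nat.choose (E j i) (E j' i) : ℕ) : ℝ) ≤ 2 ^ E j i := by
        exact_mod_cast Nat.choose_le_two_pow (E j i) (E j' i)
      have h6 : (B : ℝ) ^ (E j' i) ≤ (Q : ℝ) ^ (E j' i) := pow_le_pow_left₀ hB0.le hBQR _
      have h4 : (Q : ℝ) ^ (E j' i) * (Q : ℝ) ^ (E j i - E j' i) = (Q : ℝ) ^ (E j i) := by
        rw [← pow_add]
        congr 1
        have h0 : E j' i ≤ E j i := hle i
        omega
      calc (B : ℝ) ^ (E j' i) * (((Nat.choose (E j i) (E j' i) : ℕ) : ℝ) *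
            |(q i : ℝ)| ^ (E j i - E j' i))
          ≤ (Q : ℝ) ^ (E j' i) * (2 ^ E j i * (Q : ℝ) ^ (E j i - E j' i)) := by
            gcongr
        _ = 2 ^ E j i * ((Q : ℝ) ^ (E j' i) * (Q : ℝ) ^ (E j i - E j' i)) := by ring
        _ = (2 * (Q : ℝ)) ^ E j i := by rw [h4, mul_pow]
    · rw [T_eq_zero _ _ _ hle]
      simp only [Int.cast_zero, abs_zero, mul_zero]
      positivity
  refine ⟨e, he0, fun j' => ?_, hid⟩
  rw [he]
  push_cast
  rw [abs_mul, abs_of_nonneg (by positivity : (0 : ℝ) ≤ (B : ℝ) ^ (∑ i, E j' i))]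
  calc (B : ℝ) ^ (∑ i, E j' i) * |∑ j, (a' j : ℝ) * (T (fun i => - q i) (E j) (E j') : ℝ)|
      ≤ (B : ℝ) ^ (∑ i, E j' i) * ∑ j, |(a' j : ℝ) * (T (fun i => - q i) (E j) (E j') : ℝ)| :=
        mul_le_mul_of_nonneg_left (Finset.abs_sum_le_sum_abs _ _) (by positivity)
    _ = ∑ j, |(a' j : ℝ)| *
          ((B : ℝ) ^ (∑ i, E j' i) * |(T (fun i => - q i) (E j) (E j') : ℝ)|) := by
        rw [Finset.mul_sum]
        refine Finset.sum_congr rfl fun j _ => ?_
        rw [abs_mul]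
        ring
    _ ≤ ∑ _j : Fin (m + 1), H * (2 ^ p * (Q : ℝ) ^ p) := by
        refine Finset.sum_le_sum fun j _ => ?_
        have h1 : |(a' j : ℝ)| ≤ H * (Q : ℝ) ^ (p - ∑ i, E j i) := by
          rw [ha']
          push_cast
          rw [abs_mul, abs_of_nonneg (by positivity : (0 : ℝ) ≤ (B : ℝ) ^ (p - ∑ i, E j i))]
          exact mul_le_mul (haH j) (pow_le_pow_left₀ hB0.le hBQR _) (by positivity) hH0
        have h2 : (2 : ℝ) ^ (∑ i, E j i) ≤ 2 ^ p := pow_le_pow_right₀ (by norm_num) (hp j)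
        have h5 : (Q : ℝ) ^ p = (Q : ℝ) ^ (p - ∑ i, E j i) * (Q : ℝ) ^ (∑ i, E j i) := by
          rw [← pow_add]
          congr 1
          have := hp j
          omega
        calc |(a' j : ℝ)| * ((B : ℝ) ^ (∑ i, E j' i) *
              |(T (fun i => - q i) (E j) (E j') : ℝ)|)
            ≤ (H * (Q : ℝ) ^ (p - ∑ i, E j i)) * (2 ^ (∑ i, E j i) * (Q : ℝ) ^ (∑ i, E j i)) :=
              mul_le_mul h1 (hT j j') (by positivity) (by positivity)
          _ = H * (2 ^ (∑ i, E j i) * ((Q : ℝ) ^ (p - ∑ i, E j i) * (Q : ℝ) ^ (∑ i, E j i))) := by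
              ring
          _ = H * (2 ^ (∑ i, E j i) * (Q : ℝ) ^ p) := by rw [← h5]
          _ ≤ H * (2 ^ p * (Q : ℝ) ^ p) := by gcongr
    _ = H * (((m : ℝ) + 1) * 2 ^ p * Q ^ p) := by
        rw [Finset.sum_const, Finset.card_univ, Fintype.card_fin, nsmul_eq_mul]
        push_cast
        ring

/-- the raw form -/
theorem form_raw {n m : ℕ} (x : Fin n → ℝ) (E : Fin (m + 1) → Fin n → ℕ)
    (hE : Function.Injective E) (hdown : ∀ j, ∀ a : Fin n → ℕ, a ≤ E j → ∃ j', E j' = a)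
    (p : ℕ) (hp : ∀ j, ∑ i, E j i ≤ p) (M : ℕ) (hM : ∀ i, |⌊x i⌋| + 1 ≤ (M : ℤ)) (hM1 : 1 ≤ M)
    (b : ℕ) (hb : 2 ≤ b) (L k t : ℕ) (htL : t ≤ L)
    (s : Fin n → ℕ → ℤ) (hs : ∀ i l, 0 ≤ s i l ∧ s i l < b)
    (hst : ∀ i l, t < l → l ≤ L → s i l = digit b (x i) l) (hrel : SRel s E L k)
    (B H : ℕ) (hB : B = (b * (L + 1)) ^ p)
    (hH : H = ((m + 1) * (k + k + 1) * B) ^ (2 * (m + 1))) :
    ∃ e : Fin (m + 1) → ℤ, e ≠ 0 ∧
      (∀ j, |(e j : ℝ)| ≤ 2 * H * (b : ℝ) ^ (k + k) *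
        (((m : ℝ) + 1) * 2 ^ p * ((M : ℝ) * (b : ℝ) ^ t) ^ p)) ∧
      |∑ j, (e j : ℝ) * ∏ i, x i ^ E j i| ≤ ((b : ℝ) ^ t) ^ p * ((b : ℝ) ^ (k + k) *
        ((1 / b) ^ L * (2 * (m + 1) * H * ((k + k + 1) * B + B)))) := by
  classical
  obtain ⟨h, hh0, hhk, hX⟩ := hrel
  have hb1 : 1 ≤ b := by omega
  have hbR : (1 : ℝ) ≤ b := by exact_mod_cast hb1
  have hbL1 : 1 ≤ b * (L + 1) := Nat.mul_pos (by omega) (by omega)
  have hB1 : 1 ≤ B := by rw [hB]; exact Nat.one_le_pow _ _ hbL1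
  have hz : (0 : ℝ) ≤ (1 / (b : ℝ)) ^ L := by positivity
  -- the shifts
  have hq' : ∀ i, ∃ q : ℤ, ev (1 / b) (sZ (s i) L) - ev (1 / b) (DZ b (x i) L) =
      q / (b : ℝ) ^ t := fun i => by
    rw [← sZ_digit]
    exact ev_diff (s i) (digit b (x i)) b hb1 t L htL (hst i)
  choose q hq using hq'
  have hdig : ∀ i l, 0 ≤ digit b (x i) l ∧ digit b (x i) l < b := fun i l =>
    ⟨digit_nonneg _ _ hb1 _, by
      unfold digit
      exact Int.emod_lt_of_pos _ (by exact_mod_cast hb1)⟩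
  have hev1 : ∀ i, 0 ≤ ev (1 / (b : ℝ)) (sZ (s i) L) ∧
      ev (1 / (b : ℝ)) (sZ (s i) L) ≤ 1 - (1 / b) ^ L := fun i =>
    ev_sZ_bounds (s i) b hb1 (fun l => (hs i l).1) (fun l => (hs i l).2) L
  have hev2 : ∀ i, 0 ≤ ev (1 / (b : ℝ)) (DZ b (x i) L) ∧
      ev (1 / (b : ℝ)) (DZ b (x i) L) ≤ 1 - (1 / b) ^ L := fun i => by
    rw [← sZ_digit]
    exact ev_sZ_bounds _ b hb1 (fun l => (hdig i l).1) (fun l => (hdig i l).2) L
  have hbt : (0 : ℝ) < (b : ℝ) ^ t := by positivity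
  have hqb : ∀ i, |q i| ≤ ((b ^ t : ℕ) : ℤ) := by
    intro i
    have h1 : |(q i : ℝ) / (b : ℝ) ^ t| ≤ 1 := by
      rw [← hq i, abs_le]
      constructor <;> linarith [(hev1 i).1, (hev1 i).2, (hev2 i).1, (hev2 i).2]
    rw [abs_div, abs_of_pos hbt, div_le_one hbt] at h1
    have h2 : ((|q i| : ℤ) : ℝ) ≤ ((b ^ t : ℕ) : ℝ) := by push_cast; exact h1
    exact_mod_cast h2
  obtain ⟨v, hv⟩ : ∃ v : Fin n → ℝ, v = fun i => Int.fract (x i) + (q i : ℝ) / ((b ^ t : ℕ) : ℝ) :=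
    ⟨_, rfl⟩
  have hkey : ∀ i, v i - ev (1 / (b : ℝ)) (sZ (s i) L) =
      Int.fract (x i) - ev (1 / (b : ℝ)) (DZ b (x i) L) := by
    intro i
    have h1 := hq i
    rw [hv]
    push_cast
    linarith
  have hcl := fun i => ev_DZ_close (x i) b hb1 L
  obtain ⟨a, ha0, haM, haS⟩ := Pool.Agent.R473.JC.exists_form m k k L B (2 * (m + 1)) b hb hB1
    (fun j => ∏ i, v i ^ E j i) (B : ℝ) (fun j => ∏ i, (sZ (s i) L) ^ E j i)
    (fun j l => by
      have h0 := prod_coeff_nonneg (fun i => sZ (s i) L)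
        (fun i => sZ_coeff_nonneg (s i) (fun l => (hs i l).1) L) (E j) Finset.univ
      rw [abs_of_nonneg (h0 l)]
      refine (coeff_le_eval_one _ h0 l).trans ?_
      rw [eval_prod]
      have h1 : ((B : ℕ) : ℤ) = ((b : ℤ) * (L + 1)) ^ p := by rw [hB]; push_cast; ring
      have h2 : (1 : ℤ) ≤ (b : ℤ) * (L + 1) := by exact_mod_cast hbL1
      have h3 : ∀ i, 0 ≤ (sZ (s i) L).eval 1 ∧ (sZ (s i) L).eval 1 ≤ b * (L + 1) := fun i =>
        sZ_eval_one (s i) b (fun l => (hs i l).1) (fun l => (hs i l).2) L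
      calc ∏ i, eval 1 (sZ (s i) L ^ E j i) ≤ ∏ i, ((b : ℤ) * (L + 1)) ^ E j i := by
            refine Finset.prod_le_prod (fun i _ => ?_) fun i _ => ?_
            · rw [eval_pow]; exact pow_nonneg (h3 i).1 _
            · rw [eval_pow]
              exact pow_le_pow_left₀ (h3 i).1 (h3 i).2 _
        _ = ((b : ℤ) * (L + 1)) ^ ∑ i, E j i := by rw [Finset.prod_pow_eq_pow_sum]
        _ ≤ ((b : ℤ) * (L + 1)) ^ p := pow_le_pow_right₀ h2 (hp j)
        _ = _ := h1.symm)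
    (fun j => by
      have hev : ev (1 / (b : ℝ)) (∏ i, (sZ (s i) L) ^ E j i) =
          ∏ i, (ev (1 / (b : ℝ)) (sZ (s i) L)) ^ E j i := by
        unfold ev
        rw [Polynomial.map_prod, eval_prod]
        refine Finset.prod_congr rfl fun i _ => ?_
        rw [Polynomial.map_pow, eval_pow]
      rw [hev]
      refine (prod_pow_sub_le _ _ (fun i => ?_) (fun i => ?_) (fun i => (hev1 i).1)
        (fun i => ?_) (E j) Finset.univ).trans ?_
      · have h1 := hkey i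
        have h2 := (hcl i).1
        have h3 := (hev1 i).1
        linarith
      · have h1 := hkey i
        have h2 := (hcl i).2
        have h3 := (hev1 i).2
        linarith
      · have h3 := (hev1 i).2
        linarith
      · calc ∑ i, (E j i : ℝ) * |v i - ev (1 / (b : ℝ)) (sZ (s i) L)|
            ≤ ∑ i, (E j i : ℝ) * (1 / (b : ℝ)) ^ L := by
              refine Finset.sum_le_sum fun i _ => ?_
              refine mul_le_mul_of_nonneg_left ?_ (Nat.cast_nonneg _)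
              rw [hkey i, abs_of_nonneg (hcl i).1]
              exact (hcl i).2
          _ = ((∑ i, E j i : ℕ) : ℝ) * (1 / (b : ℝ)) ^ L := by
              rw [← Finset.sum_mul]; push_cast; ring
          _ ≤ (B : ℝ) * (1 / (b : ℝ)) ^ L := by
              refine mul_le_mul_of_nonneg_right ?_ hz
              have e2 : p < 2 ^ p := Nat.lt_two_pow_self
              have e3 : 2 ^ p ≤ B := by
                rw [hB]
                exact Nat.pow_le_pow_left (by nlinarith) p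
              have e4 := hp j
              exact_mod_cast (by omega : ∑ i, E j i ≤ B))
    h hh0 hhk (by
      have e : ∑ j, h j * (∏ i, (sZ (s i) L) ^ E j i).map (Int.castRingHom ℚ) =
          ∑ j, h j * ∏ i, sQ (s i) L ^ E j i := by
        refine Finset.sum_congr rfl fun j _ => ?_
        rw [Polynomial.map_prod]
        congr 1
        refine Finset.prod_congr rfl fun i _ => ?_
        rw [Polynomial.map_pow, sQ_eq]
      rw [e]; exact hX)
    (by nlinarith) H hH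
  -- the shift
  have hbt1 : 1 ≤ b ^ t := Nat.one_le_pow _ _ (by omega)
  obtain ⟨e, he0, heM, heS⟩ := shift_form x E hE hdown p hp (b ^ t) (M * b ^ t) hbt1
    (Nat.le_mul_of_pos_left _ (by omega)) (fun i => q i - (b ^ t : ℕ) * ⌊x i⌋)
    (fun i => by
      have h1 := hM i
      have h2 := hqb i
      have h3 : |((b ^ t : ℕ) : ℤ) * ⌊x i⌋| = ((b ^ t : ℕ) : ℤ) * |⌊x i⌋| := by
        rw [abs_mul, abs_of_nonneg (by positivity)]
      have h4 : (0 : ℤ) ≤ ((b ^ t : ℕ) : ℤ) := by positivity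
      calc |q i - ((b ^ t : ℕ) : ℤ) * ⌊x i⌋| ≤ |q i| + |((b ^ t : ℕ) : ℤ) * ⌊x i⌋| := abs_sub _ _
        _ ≤ ((b ^ t : ℕ) : ℤ) + ((b ^ t : ℕ) : ℤ) * |⌊x i⌋| := by rw [h3]; linarith
        _ = ((b ^ t : ℕ) : ℤ) * (|⌊x i⌋| + 1) := by ring
        _ ≤ ((b ^ t : ℕ) : ℤ) * M := mul_le_mul_of_nonneg_left h1 h4
        _ = ((M * b ^ t : ℕ) : ℤ) := by push_cast; ring)
    a ha0 _ haM
  have hveq : ∀ i, x i + ((q i - (b ^ t : ℕ) * ⌊x i⌋ : ℤ) : ℝ) / ((b ^ t : ℕ) : ℝ) = v i := by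
    intro i
    rw [hv]
    push_cast
    unfold Int.fract
    field_simp
    ring
  refine ⟨e, he0, fun j => ?_, ?_⟩
  · refine (heM j).trans (le_of_eq ?_)
    push_cast
    ring
  · rw [heS]
    simp only [hveq]
    rw [abs_mul, abs_of_nonneg (by positivity)]
    push_cast
    exact mul_le_mul_of_nonneg_left haS (by positivity)

end Pool.Agent.J6H21.DR
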