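import Pool.Agent.J6H21.DR.Est
import Pool.Agent.J6H54.LG.Near

/-!
# Relations between the digits of several numbers, relative to the digits of a fixed number
-/

set_option autoImplicit false

namespace Pool.Agent.J6H21.DR

open Finset Polynomial Module Pool.Agent.W472.AC Pool.Agent.R473.EC Pool.Agent.TH629.ExpDig
open Pool.Agent.J6H54.LG (Near)

/-- pairs of exponents -/
def pr (r : ℕ) : Fin (r * r + 2 * r + 1) ≃ Fin (r + 1) × Fin (r + 1) :=
  (finCongr (by ring)).trans finProdFinEquiv.symm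

/-- the exponents -/
def Ex (r : ℕ) (j : Fin (r * r + 2 * r + 1)) : Fin 2 → ℕ := ![((pr r j).1 : ℕ), ((pr r j).2 : ℕ)]

lemma Ex_inj (r : ℕ) : Function.Injective (Ex r) := by
  intro j j' h
  apply (pr r).injective
  have h0 := congrFun h 0
  have h1 := congrFun h 1
  simp only [Ex, Matrix.cons_val_zero, Matrix.cons_val_one] at h0 h1
  exact Prod.ext (Fin.ext h0) (Fin.ext h1)

lemma Ex_down (r : ℕ) : ∀ j, ∀ a : Fin 2 → ℕ, a ≤ Ex r j → ∃ j', Ex r j' = a := by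
  intro j a ha
  have h0 : a 0 ≤ ((pr r j).1 : ℕ) := ha 0
  have h1 : a 1 ≤ ((pr r j).2 : ℕ) := ha 1
  have g0 := (pr r j).1.2
  have g1 := (pr r j).2.2
  refine ⟨(pr r).symm (⟨a 0, by omega⟩, ⟨a 1, by omega⟩), ?_⟩
  funext i
  simp only [Ex, Equiv.apply_symm_apply]
  fin_cases i <;> rfl

/-- a relation with coefficients of degree `≤ k` in `X` between the powers of degree at most `r` of
the two digit polynomials -/
def Rel (s : Fin 2 → ℕ → ℤ) (r L k : ℕ) : Prop :=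
  ∃ h : Fin (r + 1) → Fin (r + 1) → ℚ[X], h ≠ 0 ∧ (∀ i j, (h i j).natDegree ≤ k) ∧
    X ^ (L + 1) ∣ ∑ i, ∑ j, h i j * (sQ (s 0) L ^ (i : ℕ) * sQ (s 1) L ^ (j : ℕ))

lemma srel_of_rel {s : Fin 2 → ℕ → ℤ} {r L k : ℕ} (h : Rel s r L k) : SRel s (Ex r) L k := by
  obtain ⟨h, h0, hd, hX⟩ := h
  refine ⟨fun l => h (pr r l).1 (pr r l).2, ?_, fun l => hd _ _, ?_⟩
  · intro hz
    apply h0
    funext i j
    have h1 := congrFun hz ((pr r).symm (i, j))
    simpa using h1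
  · have e : ∑ l, h (pr r l).1 (pr r l).2 * ∏ i, sQ (s i) L ^ Ex r l i =
        ∑ i, ∑ j, h i j * (sQ (s 0) L ^ (i : ℕ) * sQ (s 1) L ^ (j : ℕ)) := by
      rw [← Fintype.sum_prod_type', ← Equiv.sum_comp (pr r)]
      refine Finset.sum_congr rfl fun l _ => ?_
      rw [Fin.prod_univ_two]
      rfl
    rw [e]
    exact hX

/-- the linear form of a relation -/
theorem near_of_rel (a y : ℝ) (r : ℕ) : ∃ A : ℝ, 1 ≤ A ∧ ∀ b : ℕ, 2 ≤ b → ∀ L k t : ℕ, t ≤ L →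
    ∀ s : Fin 2 → ℕ → ℤ, (∀ i l, 0 ≤ s i l ∧ s i l < b) →
      (∀ i l, t < l → l ≤ L → s i l = digit b (![a, y] i) l) →
    SRel s (Ex r) L k → ∀ Q V : ℝ,
      A * ((k + 1 + t) * Real.log b + Real.log (L + 1)) ≤ Q →
      A * ((k + 1 + t) * Real.log b + Real.log (L + 1)) - L * Real.log b ≤ V →
      Near r (Real.exp Q) (Real.exp V) a y := by
  obtain ⟨A, hA, h⟩ := form_of_rel ![a, y] (Ex r) (Ex_inj r) (Ex_down r)
  refine ⟨A, hA, fun b hb L k t ht s hs hst hrel Q V hQ hV => ?_⟩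
  obtain ⟨e, he0, hec, hev⟩ := h b hb L k t ht s hs hst hrel
  refine ⟨fun i j => e ((pr r).symm (i, j)), ?_, fun i j => ?_, ?_⟩
  · intro hz
    apply he0
    funext l
    have h1 := congrFun (congrFun hz (pr r l).1) (pr r l).2
    simpa using h1
  · exact (hec _).trans (Real.exp_le_exp.2 hQ)
  · have e1 : ∑ i, ∑ j, (e ((pr r).symm (i, j)) : ℝ) * a ^ (i : ℕ) * y ^ (j : ℕ) =
        ∑ l, (e l : ℝ) * ∏ i, (![a, y] : Fin 2 → ℝ) i ^ Ex r l i := by
      rw [← Fintype.sum_prod_type', ← Equiv.sum_comp (pr r)]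
      refine Finset.sum_congr rfl fun l _ => ?_
      rw [Fin.prod_univ_two]
      simp only [Equiv.symm_apply_apply, Prod.mk.eta, Ex, Matrix.cons_val_zero,
        Matrix.cons_val_one]
      ring
    rw [e1]
    exact hev.trans (Real.exp_le_exp.2 hV)

/-- the places among `1, …, L` at which one of the sequences is not the sequence of the digits -/
def chg (b : ℕ) (a y : ℝ) (s : Fin 2 → ℕ → ℤ) (L : ℕ) : Set ℕ :=
  {l : ℕ | 1 ≤ l ∧ l ≤ L ∧ ∃ i, s i l ≠ digit b (![a, y] i) l}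

lemma chg_fin (b : ℕ) (a y : ℝ) (s : Fin 2 → ℕ → ℤ) (L : ℕ) : (chg b a y s L).Finite := by
  refine (Set.finite_Icc 1 L).subset ?_
  rintro l ⟨h1, h2, _⟩
  exact ⟨h1, h2⟩

lemma log_growth (g : ℝ) (hg : 0 ≤ g) : Real.log (2 * g ^ 2 + 1) ≤ 2 * g := by
  have h1 := Real.quadratic_le_exp_of_nonneg (by linarith : (0 : ℝ) ≤ 2 * g)
  rw [Real.log_le_iff_le_exp (by positivity)]
  refine le_trans ?_ h1
  nlinarith

/-- **Several numbers, several bases, a bounded number of changes.** -/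
theorem multi {ι : Type} (a : ℝ) (x : ι → ℝ) (F : Finset ι) (n r C : ℕ)
    (hJ : ∀ H : ℝ, 2 ≤ H → ∀ T : Finset ι, T ⊆ F →
      (∀ i ∈ T, Near r H (1 / H ^ C) a (x i)) → T.card ≤ n) :
    ∃ A : ℝ, 1 ≤ A ∧ ∀ T : Finset ι, T ⊆ F → T.card = n + 1 → ∀ b K L k : ι → ℕ,
      (∀ i ∈ T, 2 ≤ b i) → ∀ s : ι → Fin 2 → ℕ → ℤ,
      (∀ i ∈ T, ∀ j l, 0 ≤ s i j l ∧ s i j l < b i) →
      (∀ i ∈ T, (chg (b i) a (x i) (s i) (L i)).ncard ≤ K i) →
      (∀ i ∈ T, SRel (s i) (Ex r) (L i) (k i)) →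
      ∃ i ∈ T, (L i : ℝ) * Real.log (b i) ≤
        A ^ (∑ i ∈ T, K i + 1) * ∑ i ∈ T, ((k i : ℝ) + 1) * Real.log (b i) := by
  classical
  choose A' hA' hnear using fun i => near_of_rel a (x i) r
  obtain ⟨A₀, hA₀⟩ : ∃ A₀ : ℝ, A₀ = 1 + ∑ i ∈ F, A' i := ⟨_, rfl⟩
  have hA0i : ∀ i ∈ F, A' i ≤ A₀ := by
    intro i hi
    have h1 : A' i ≤ ∑ i ∈ F, A' i :=
      Finset.single_le_sum (f := A') (fun i _ => by linarith [hA' i]) hi
    linarith
  have hA01 : 1 ≤ A₀ := by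
    have : 0 ≤ ∑ i ∈ F, A' i := Finset.sum_nonneg fun i _ => by linarith [hA' i]
    linarith
  obtain ⟨B, hB⟩ : ∃ B : ℝ, B = ((C : ℝ) + 1) * A₀ := ⟨_, rfl⟩
  have hC0 : (0 : ℝ) ≤ C := Nat.cast_nonneg C
  have hB1 : 1 ≤ B := by rw [hB]; nlinarith
  obtain ⟨g, hg⟩ : ∃ g : ℝ, g = 4 * B + 4 := ⟨_, rfl⟩
  have hg1 : 8 ≤ g := by rw [hg]; linarith
  obtain ⟨Γ, hΓ⟩ : ∃ Γ : ℝ, Γ = g ^ 2 := ⟨_, rfl⟩
  have hΓ1 : 1 ≤ Γ := by rw [hΓ]; nlinarith
  have hΓ0 : 0 < Γ := by linarith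
  obtain ⟨ℓ, hℓ⟩ : ∃ ℓ : ℝ, ℓ = Real.log (2 * Γ + 1) := ⟨_, rfl⟩
  have hℓ0 : 0 ≤ ℓ := by rw [hℓ]; exact Real.log_nonneg (by linarith)
  have hℓg : ℓ ≤ 2 * g := by rw [hℓ, hΓ]; exact log_growth g (by linarith)
  obtain ⟨A₁, hA₁⟩ : ∃ A₁ : ℝ, A₁ = A₀ * (3 + 2 * ℓ) := ⟨_, rfl⟩
  have hA₁3 : 3 ≤ A₁ := by rw [hA₁]; nlinarith
  have hcond : 1 + ((C : ℝ) + 1) * A₁ ≤ Γ := by
    have h1 : ((C : ℝ) + 1) * A₁ = B * (3 + 2 * ℓ) := by rw [hA₁, hB]; ring
    rw [h1, hΓ, hg]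
    have h2 : B * (3 + 2 * ℓ) ≤ B * (3 + 4 * g) :=
      mul_le_mul_of_nonneg_left (by linarith) (by linarith)
    rw [hg] at h2
    nlinarith
  refine ⟨Γ, hΓ1, fun T hTF hT b K L k hb s hs hK hrel => ?_⟩
  obtain ⟨R, hR⟩ : ∃ R : ℝ, R = ∑ i ∈ T, ((k i : ℝ) + 1) * Real.log (b i) := ⟨_, rfl⟩
  rw [← hR]
  by_contra hcon
  push Not at hcon
  have hlb : ∀ i ∈ T, 1 / 2 < Real.log (b i) := by
    intro i hi
    have h0 : (2 : ℝ) ≤ b i := by exact_mod_cast hb i hi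
    have h1 := Real.log_le_log (by norm_num) h0
    have h2 := Real.log_two_gt_d9
    linarith
  have hRi : ∀ i ∈ T, ((k i : ℝ) + 1) * Real.log (b i) ≤ R := by
    intro i hi
    rw [hR]
    exact Finset.single_le_sum (f := fun i => ((k i : ℝ) + 1) * Real.log (b i))
      (fun i hi => by have := hlb i hi; positivity) hi
  have hTne : T.Nonempty := by
    rw [← Finset.card_pos]
    omega
  have hR2 : 1 / 2 ≤ R := by
    obtain ⟨i, hi⟩ := hTne
    have h1 := hRi i hi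
    have h2 := hlb i hi
    have h3 : (0 : ℝ) ≤ k i * Real.log (b i) := by positivity
    linarith
  obtain ⟨J, hJJ⟩ : ∃ J : ℕ, J = ∑ i ∈ T, K i := ⟨_, rfl⟩
  rw [← hJJ] at hcon
  -- a window without changes
  obtain ⟨w, hwJ, hw⟩ : ∃ w : ℕ, w < J + 1 ∧ ∀ i ∈ T, ∀ l ∈ chg (b i) a (x i) (s i) (L i),
      ¬ (Γ ^ w * R < l * Real.log (b i) ∧ l * Real.log (b i) ≤ Γ ^ (w + 1) * R) := by
    by_contra hno
    push Not at hno
    have hno' : ∀ w : ℕ, ∃ p : (_ : ι) × ℕ, w < J + 1 →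
        p ∈ T.sigma (fun i => (chg_fin (b i) a (x i) (s i) (L i)).toFinset) ∧
        Γ ^ w * R < p.2 * Real.log (b p.1) ∧ p.2 * Real.log (b p.1) ≤ Γ ^ (w + 1) * R := by
      intro w
      by_cases hw : w < J + 1
      · obtain ⟨i, hi, l, hl, h1, h2⟩ := hno w hw
        refine ⟨⟨i, l⟩, fun _ => ⟨?_, h1, h2⟩⟩
        rw [Finset.mem_sigma, Set.Finite.mem_toFinset]
        exact ⟨hi, hl⟩
      · exact ⟨⟨hTne.choose, 0⟩, fun h => absurd h hw⟩
    choose f hf using hno'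
    have hcard : (T.sigma (fun i => (chg_fin (b i) a (x i) (s i) (L i)).toFinset)).card <
        (range (J + 1)).card := by
      rw [Finset.card_sigma, Finset.card_range, hJJ]
      refine Nat.lt_succ_of_le (Finset.sum_le_sum fun i hi => ?_)
      rw [← Set.ncard_eq_toFinset_card _ (chg_fin (b i) a (x i) (s i) (L i))]
      exact hK i hi
    obtain ⟨w, hw, w', hw', hne, heq⟩ := Finset.exists_ne_map_eq_of_card_lt_of_maps_to hcard
      (f := f) (fun w hw => (hf w (mem_range.1 hw)).1)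
    have key : ∀ w w' : ℕ, w < J + 1 → w' < J + 1 → w < w' → f w = f w' → False := by
      intro w w' h1 h2 hlt he
      have h3 := (hf w h1).2.2
      have h4 := (hf w' h2).2.1
      rw [he] at h3
      have h5 : Γ ^ (w + 1) * R ≤ Γ ^ w' * R :=
        mul_le_mul_of_nonneg_right (pow_le_pow_right₀ hΓ1 (by omega)) (by linarith)
      linarith
    rcases lt_or_gt_of_ne hne with h | h
    · exact key w w' (mem_range.1 hw) (mem_range.1 hw') h heq
    · exact key w' w (mem_range.1 hw') (mem_range.1 hw) h heq.symm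
  obtain ⟨Z, hZ⟩ : ∃ Z : ℝ, Z = Γ ^ w * R := ⟨_, rfl⟩
  have hZR : R ≤ Z := by
    rw [hZ]
    exact le_mul_of_one_le_left (by linarith) (one_le_pow₀ hΓ1)
  have hZ2 : 1 / 2 ≤ Z := hR2.trans hZR
  have hΓZ : Γ ^ (w + 1) * R = Γ * Z := by rw [hZ, pow_succ]; ring
  have hΓZ' : Γ * Z ≤ Γ ^ (J + 1) * R := by
    rw [← hΓZ]
    exact mul_le_mul_of_nonneg_right (pow_le_pow_right₀ hΓ1 (by omega)) (by linarith)
  have hle := hJ (Real.exp (A₁ * Z)) (by
    have h1 : (1 : ℝ) ≤ A₁ * Z := by nlinarith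
    have h2 := Real.add_one_le_exp (A₁ * Z)
    linarith) T hTF (fun i hi => by
    obtain ⟨lb, hlbd⟩ : ∃ y : ℝ, y = Real.log (b i) := ⟨_, rfl⟩
    have hlbi := hlb i hi
    have hRii := hRi i hi
    have hconi := hcon i hi
    have hwi := hw i hi
    rw [← hlbd] at hlbi hRii hconi hwi
    have hlb0 : 0 < lb := by linarith
    obtain ⟨L', hL'⟩ : ∃ L' : ℕ, L' = ⌊Γ * Z / lb⌋₊ := ⟨_, rfl⟩
    obtain ⟨t, ht⟩ : ∃ t : ℕ, t = ⌊Z / lb⌋₊ := ⟨_, rfl⟩
    have a1 : (L' : ℝ) * lb ≤ Γ * Z := by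
      rw [← le_div_iff₀ hlb0, hL']; exact Nat.floor_le (by positivity)
    have a2 : Γ * Z < L' * lb + lb := by
      have := Nat.lt_floor_add_one (Γ * Z / lb)
      rw [← hL', div_lt_iff₀ hlb0] at this
      linarith
    have a3 : (t : ℝ) * lb ≤ Z := by
      rw [← le_div_iff₀ hlb0, ht]; exact Nat.floor_le (by positivity)
    have a4 : Z < t * lb + lb := by
      have := Nat.lt_floor_add_one (Z / lb)
      rw [← ht, div_lt_iff₀ hlb0] at this
      linarith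
    have htL : t ≤ L' := by
      rw [ht, hL']
      refine Nat.floor_le_floor ?_
      exact div_le_div_of_nonneg_right (by nlinarith) hlb0.le
    have hLL : L' ≤ L i := by
      have h1 : (L' : ℝ) * lb ≤ L i * lb := (a1.trans hΓZ').trans hconi.le
      exact_mod_cast le_of_mul_le_mul_right h1 hlb0
    have hdig : ∀ j l, t < l → l ≤ L' → s i j l = digit (b i) (![a, x i] j) l := by
      intro j l hl hl'
      by_contra hne
      refine hwi l ⟨by omega, by omega, j, hne⟩ ⟨?_, ?_⟩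
      · rw [← hZ]
        have h1 : ((t + 1 : ℕ) : ℝ) ≤ l := by exact_mod_cast hl
        push_cast at h1
        have h2 := mul_le_mul_of_nonneg_right h1 hlb0.le
        linarith
      · rw [hΓZ]
        have h1 : (l : ℝ) ≤ L' := by exact_mod_cast hl'
        have h2 := mul_le_mul_of_nonneg_right h1 hlb0.le
        linarith
    have hlog : Real.log ((L' : ℝ) + 1) ≤ (2 * ℓ + 1) * Z := by
      have h1 : (L' : ℝ) + 1 ≤ (2 * Γ + 1) * (Z + 1) := by
        have h2 : (L' : ℝ) * (1 / 2) ≤ L' * lb :=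
          mul_le_mul_of_nonneg_left hlbi.le (Nat.cast_nonneg _)
        nlinarith
      have h3 : Real.log ((L' : ℝ) + 1) ≤ Real.log ((2 * Γ + 1) * (Z + 1)) :=
        Real.log_le_log (by positivity) h1
      rw [Real.log_mul (by positivity) (by linarith), ← hℓ] at h3
      have h4 := Real.log_le_sub_one_of_pos (by linarith : 0 < Z + 1)
      nlinarith
    have hΛ : ((k i : ℝ) + 1 + t) * lb + Real.log ((L' : ℝ) + 1) ≤ (3 + 2 * ℓ) * Z := by
      have : ((k i : ℝ) + 1 + t) * lb = ((k i : ℝ) + 1) * lb + t * lb := by ring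
      rw [this]
      linarith
    have hΛ0 : 0 ≤ ((k i : ℝ) + 1 + t) * lb + Real.log ((L' : ℝ) + 1) := by
      have : 0 ≤ Real.log ((L' : ℝ) + 1) := Real.log_nonneg (by
        linarith [(Nat.cast_nonneg L' : (0 : ℝ) ≤ L')])
      positivity
    have hAΛ : A' i * (((k i : ℝ) + 1 + t) * lb + Real.log ((L' : ℝ) + 1)) ≤ A₁ * Z := by
      calc A' i * (((k i : ℝ) + 1 + t) * lb + Real.log ((L' : ℝ) + 1))
          ≤ A₀ * ((3 + 2 * ℓ) * Z) :=
            mul_le_mul (hA0i i (hTF hi)) hΛ hΛ0 (by linarith)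
        _ = A₁ * Z := by rw [hA₁]; ring
    have e1 : 1 / Real.exp (A₁ * Z) ^ C = Real.exp (-(C * (A₁ * Z))) := by
      rw [← Real.exp_nat_mul, Real.exp_neg, one_div]
    rw [e1]
    refine hnear i (b i) (hb i hi) L' (k i) t htL (s i) (hs i hi) hdig
      ((hrel i hi).trunc L' hLL) _ _ ?_ ?_
    · rw [← hlbd]; exact hAΛ
    · rw [← hlbd]
      have h1 : lb ≤ Z := by
        have h2 : (0 : ℝ) ≤ k i * lb := by positivity
        linarith
      have h3 : (1 + ((C : ℝ) + 1) * A₁) * Z ≤ Γ * Z :=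
        mul_le_mul_of_nonneg_right hcond (by linarith)
      linarith)
  omega

end Pool.Agent.J6H21.DR
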